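import Pool.Agent.Helper69.OWN.TWK

/-!
A graph with tree-independence number and tree-chromatic number at most two and treewidth four.
-/

set_option autoImplicit false

namespace Pool.Agent.Results.MP_d20af1_co.SubdividedK5

open SimpleGraph

/-- `(T, B)` is a tree decomposition of `G`: `T` is a tree, every vertex of `G` is in a bag, both
ends of every edge are in a common bag, and the nodes whose bags contain a given vertex induce a
connected subgraph (a subtree) of `T`. -/
structure IsTreeDecomposition {V : Type} (G : SimpleGraph V) {n : ℕ} (T : SimpleGraph (Fin n))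
    (B : Fin n → Finset V) : Prop where
  tree : T.IsTree
  vertex : ∀ v, ∃ i, v ∈ B i
  edge : ∀ u v, G.Adj u v → ∃ i, u ∈ B i ∧ v ∈ B i
  subtree : ∀ v, (T.induce {i | v ∈ B i}).Connected

/-- the treewidth: the least `w` such that some tree decomposition has all bags of size at most
`w + 1` -/
noncomputable def treewidth {V : Type} (G : SimpleGraph V) : ℕ :=
  sInf {w | ∃ (n : ℕ) (T : SimpleGraph (Fin n)) (B : Fin n → Finset V),
    IsTreeDecomposition G T B ∧ ∀ i, (B i).card ≤ w + 1}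

/-- the tree-independence number -/
noncomputable def treeAlpha {V : Type} (G : SimpleGraph V) : ℕ :=
  sInf {a | ∃ (n : ℕ) (T : SimpleGraph (Fin n)) (B : Fin n → Finset V),
    IsTreeDecomposition G T B ∧ ∀ i, ∀ S ⊆ B i, G.IsIndepSet (S : Set V) → S.card ≤ a}

/-- the tree-chromatic number -/
noncomputable def treeChi {V : Type} (G : SimpleGraph V) : ℕ :=
  sInf {k | ∃ (n : ℕ) (T : SimpleGraph (Fin n)) (B : Fin n → Finset V),
    IsTreeDecomposition G T B ∧ ∀ i, (G.induce (B i : Set V)).Colorable k}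

open Pool.Agent.Helper69.OWN.TWK

theorem tw_set :
    4 ∈ {w | ∃ (n : ℕ) (T : SimpleGraph (Fin n)) (B : Fin n → Finset (Fin 5 × Bool)),
      IsTreeDecomposition Gr T B ∧ ∀ i, (B i).card ≤ w + 1} := by
  refine ⟨6, starGraph 0, bagA, ⟨isTree_starGraph 0, ?_, ?_, ?_⟩, ?_⟩
  · decide +kernel
  · decide +kernel
  · intro v
    apply star_connected
    · have : ∀ v : Fin 5 × Bool, ∃ i : Fin 6, v ∈ bagA i := by decide +kernel
      exact this v
    · have : ∀ v : Fin 5 × Bool, v ∈ bagA 0 ∨ ∀ i : Fin 6, v ∈ bagA i →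
          ∀ j : Fin 6, v ∈ bagA j → i = j := by decide +kernel
      rcases this v with h | h
      · exact Or.inl h
      · exact Or.inr (fun i hi j hj => h i hi j hj)
  · decide +kernel

/-- **A graph with `tw + 1 = 5` and `tree-α · tree-χ ≤ 4`.** -/
theorem result : ∃ G : SimpleGraph (Fin 5 × Bool),
    treewidth G = 4 ∧ treeAlpha G ≤ 2 ∧ treeChi G ≤ 2 := by
  refine ⟨Gr, le_antisymm (Nat.sInf_le tw_set) ?_, Nat.sInf_le ?_, Nat.sInf_le ?_⟩
  · refine le_csInf ⟨4, tw_set⟩ ?_
    rintro w ⟨n, T, B, h, hcard⟩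
    obtain ⟨t, ht⟩ := tw_ge n T B h.tree h.edge h.subtree
    have := hcard t
    omega
  · obtain ⟨n, T, B, h1, h2, h3, h4⟩ := treeAlpha_le
    refine ⟨n, T, B, ⟨h1, fun v => ?_, h2, h3⟩, h4⟩
    obtain ⟨⟨i, hi⟩⟩ := (h3 v).nonempty
    exact ⟨i, hi⟩
  · obtain ⟨n, T, B, h1, h2, h3, h4⟩ := treeChi_le
    refine ⟨n, T, B, ⟨h1, fun v => ?_, h2, h3⟩, h4⟩
    obtain ⟨⟨i, hi⟩⟩ := (h3 v).nonempty
    exact ⟨i, hi⟩

end Pool.Agent.Results.MP_d20af1_co.SubdividedK5
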